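import Pool.Agent.Helper94.UP.Sheet

set_option autoImplicit false

namespace Pool.Agent.Helper94.UP

theorem me_aux.{u} {X : Type u} [NormedAddCommGroup X] [NormedSpace ℝ X] (c : X)
    (r η : ℝ) (ρ : X → ℝ) (hr : 0 < r) (hη : 0 < η) (hc : ρ c = 0)
    (hρ : ∀ x y, ‖x - c‖ ≤ r → ‖y - c‖ ≤ r → |ρ x - ρ y| ≤ η * ‖x - y‖) :
    ∃ σ : X → ℝ, (∀ x, ‖x - c‖ ≤ r → σ x = ρ x) ∧ (∀ x, |σ x| ≤ η * r) ∧
      ∀ x y, |σ x - σ y| ≤ η * ‖x - y‖ := by
  have hL : LipschitzOnWith η.toNNReal ρ {x | ‖x - c‖ ≤ r} := by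
    refine LipschitzOnWith.of_dist_le_mul (fun x hx y hy => ?_)
    rw [Real.dist_eq, dist_eq_norm, Real.coe_toNNReal η hη.le]
    exact hρ x y hx hy
  obtain ⟨g, hg, hEq⟩ := hL.extend_real
  have hgl : ∀ x y, |g x - g y| ≤ η * ‖x - y‖ := by
    intro x y
    have h := hg.dist_le_mul x y
    rwa [Real.dist_eq, dist_eq_norm, Real.coe_toNNReal η hη.le] at h
  have hηr : 0 < η * r := mul_pos hη hr
  refine ⟨fun x => max (-(η * r)) (min (g x) (η * r)), ?_, ?_, ?_⟩
  · intro x hx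
    have h1 : g x = ρ x := (hEq hx).symm
    have h2 : |ρ x| ≤ η * r := by
      have h := hρ x c hx (by simp [hr.le])
      rw [hc, sub_zero] at h
      exact h.trans (mul_le_mul_of_nonneg_left hx hη.le)
    show max (-(η * r)) (min (g x) (η * r)) = ρ x
    rw [h1, min_eq_left (abs_le.mp h2).2, max_eq_right (abs_le.mp h2).1]
  · intro x
    show |max (-(η * r)) (min (g x) (η * r))| ≤ η * r
    rw [abs_le]
    refine ⟨le_max_left _ _, max_le (by linarith) (min_le_right _ _)⟩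
  · intro x y
    show |max (-(η * r)) (min (g x) (η * r)) - max (-(η * r)) (min (g y) (η * r))| ≤ _
    refine le_trans ?_ (hgl x y)
    refine (abs_max_sub_max_le_max _ _ _ _).trans ?_
    rw [sub_self, abs_zero]
    refine max_le (abs_nonneg _) ((abs_min_sub_min_le_max _ _ _ _).trans ?_)
    rw [sub_self, abs_zero]
    exact max_le le_rfl (abs_nonneg _)

/-- Row ME. -/
theorem stME.{u} : ST_ME.{u} := fun c r η ρ hr hη hc hρ => me_aux c r η ρ hr hη hc hρ

end Pool.Agent.Helper94.UP
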